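import Pool.Agent.Results.MP_53d700_al.RelativeLindel
import Pool.Agent.Results.MP_ed7674_ag.RamifiedRegularRings

/-!
# The Hermite ring conjecture for smooth algebras over arithmetic surfaces and related rings
-/

set_option autoImplicit false

open Polynomial IsLocalRing Pool.Agent.W394.BQN Pool.Agent.Y808.LB TensorProduct
open Pool.Agent.Results.MP_ed7674_ag.RamifiedRegularRings (key)

noncomputable section

namespace Pool.Agent.Results.MP_062089_al.LocallyGoodRings

/-- `A` is a Hermite ring: stably free `A`-modules are free -/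
def Hermite (A : Type) [CommRing A] : Prop :=
  ∀ (M : Type) [AddCommGroup M] [Module A M],
    (∃ n m : ℕ, Nonempty ((M × (Fin n → A)) ≃ₗ[A] (Fin m → A))) → Module.Free A M

theorem hermite_mv (A : Type) [CommRing A] (h : BassQuillen A) (hA : Hermite A) (d : ℕ) :
    Hermite (MvPolynomial (Fin d) A) := by
  intro M _ _ ⟨n, m, ⟨e⟩⟩
  obtain ⟨Q, _, _, ⟨f⟩⟩ := key A h d n m M ⟨e⟩
  let : Algebra (MvPolynomial (Fin d) A) A :=
    (MvPolynomial.aeval (fun _ => (0 : A)) : MvPolynomial (Fin d) A →ₐ[A] A).toRingHom.toAlgebra
  have : IsScalarTower A (MvPolynomial (Fin d) A) A := by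
    refine IsScalarTower.of_algebraMap_eq' ?_
    ext a
    change a = MvPolynomial.aeval (fun _ => (0 : A)) (MvPolynomial.C a)
    simp
  let g : (Q × (Fin n → A)) ≃ₗ[A] (Fin m → A) :=
    ((((TensorProduct.AlgebraTensorModule.cancelBaseChange A (MvPolynomial (Fin d) A) A A Q).trans
      (TensorProduct.lid A Q)).symm.trans
        (f.symm.baseChange (MvPolynomial (Fin d) A) A _ _)).prodCongr
      (TensorProduct.piScalarRight (MvPolynomial (Fin d) A) A A (Fin n)).symm).trans
      (((TensorProduct.prodRight (MvPolynomial (Fin d) A) A A M _).symm.trans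
        (e.baseChange (MvPolynomial (Fin d) A) A _ _)).trans
        (TensorProduct.piScalarRight (MvPolynomial (Fin d) A) A A (Fin m)))
  have hQ : Module.Free A Q := hA Q ⟨n, m, ⟨g⟩⟩
  exact Module.Free.of_equiv f.symm

theorem hermite_equiv {R S : Type} [CommRing R] [CommRing S] (e : R ≃+* S) (h : Hermite R) :
    Hermite S := by
  intro M _ _ ⟨n, m, ⟨f⟩⟩
  let : Module R M := Module.compHom M e.toRingHom
  have hs : ∀ (r : R) (x : M), r • x = e r • x := fun _ _ => rfl
  let g : (M × (Fin n → R)) ≃ₗ[R] (Fin m → R) :=
    { toFun := fun x i => e.symm (f (x.1, fun j => e (x.2 j)) i)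
      invFun := fun y => ((f.symm (fun i => e (y i))).1,
        fun j => e.symm ((f.symm (fun i => e (y i))).2 j))
      map_add' := by
        intro x y
        have h1 : (x.1 + y.1, fun j => e ((x + y).2 j)) =
            (x.1, fun j => e (x.2 j)) + (y.1, fun j => e (y.2 j)) := by
          ext <;> simp
        funext i
        change e.symm (f (x.1 + y.1, fun j => e ((x + y).2 j)) i) = _
        rw [h1, map_add]
        simp
      map_smul' := by
        intro r x
        have h1 : (e r • x.1, fun j => e ((r • x).2 j)) = e r • (x.1, fun j => e (x.2 j)) := by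
          ext <;> simp
        funext i
        change e.symm (f (e r • x.1, fun j => e ((r • x).2 j)) i) = _
        rw [h1, map_smul]
        simp
      left_inv := by
        intro x
        simp
      right_inv := by
        intro y
        simp }
  have := h M ⟨n, m, ⟨g⟩⟩
  have i1 : RingHomInvPair (e : R →+* S) (e.symm : S →+* R) := RingHomInvPair.of_ringEquiv e
  have i2 : RingHomInvPair (e.symm : S →+* R) (e : R →+* S) := RingHomInvPair.of_ringEquiv e.symm
  exact Module.Free.of_equiv
    ({ AddEquiv.refl M with map_smul' := fun r x => rfl } :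
      M ≃ₛₗ[(e : R →+* S)] M)

theorem hermite_all (A : Type) [CommRing A] (h : BassQuillen A) (hA : Hermite A) :
    Hermite A[X] ∧ ∀ d : ℕ, Hermite (MvPolynomial (Fin d) A) :=
  ⟨hermite_equiv (MvPolynomial.uniqueAlgEquiv A (Fin 1)).toRingEquiv (hermite_mv A h hA 1), hermite_mv A h hA⟩

/-- Let `A` be a Hermite ring. Then `A[X]` and `A[X_1,...,X_d]` are Hermite rings (1) if all
localisations of `A` at primes belong to one of the classes of local rings `GoodPoint`; (2) if `A`
is a smooth algebra over a regular arithmetic surface `S / D` with tame fibre multiplicities; (3) if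
`A` is semistable of dimension at most three over a discrete valuation ring of characteristic zero
with algebraically closed residue field. -/
theorem result :
    (∀ (A : Type) [CommRing A],
      (∀ (q : Ideal A) [q.IsPrime], GoodPoint (Localization.AtPrime q)) → Hermite A →
      Hermite A[X] ∧ ∀ d : ℕ, Hermite (MvPolynomial (Fin d) A)) ∧
    (∀ (D S A : Type) [CommRing D] [IsDedekindDomain D] [CharZero D] [CommRing S]
      [IsDomain S] [IsRegularRing S] [Algebra D S] [CommRing A] [Algebra S A],
      (∀ (o : Ideal D) [o.IsPrime], PerfectField o.ResidueField) → Algebra.FiniteType D S →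
      Function.Injective (algebraMap D S) → ringKrullDim S ≤ 2 →
      (∀ (o : Ideal D) [o.IsPrime] (p : Ideal S) [p.IsPrime], o ≠ ⊥ → p.height = 1 →
        p.comap (algebraMap D S) = o → ∃ a : ℕ, (a : o.ResidueField) ≠ 0 ∧
          o.map (algebraMap D (Localization.AtPrime p)) =
            maximalIdeal (Localization.AtPrime p) ^ a) →
      Algebra.Smooth S A → Hermite A → Hermite A[X] ∧ ∀ d : ℕ, Hermite (MvPolynomial (Fin d) A)) ∧
    ∀ (V A : Type) [CommRing V] [IsDomain V] [IsDiscreteValuationRing V]
      [CharZero V] [CommRing A] [Algebra V A] (π : V), IsAlgClosed (ResidueField V) →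
      Irreducible π → Algebra.FiniteType V A → ringKrullDim A ≤ 3 →
      (∀ (q : Ideal A) [q.IsPrime], SncPoint V π (Localization.AtPrime q)) →
      Hermite A → Hermite A[X] ∧ ∀ d : ℕ, Hermite (MvPolynomial (Fin d) A) := by
  obtain ⟨h1, h2, h3⟩ := Pool.Agent.Results.MP_53d700_al.RelativeLindel.result
  refine ⟨fun A _ h => hermite_all A (h1 A h), ?_, ?_⟩
  · intro D S A _ _ _ _ _ _ _ _ _ h h' h'' h''' h4 h5
    exact hermite_all A (h2 D S A h h' h'' h''' h4 h5)
  · intro V A _ _ _ _ _ _ π h h' h'' h''' h4
    exact hermite_all A (h3 V A π h h' h'' h''' h4)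

end Pool.Agent.Results.MP_062089_al.LocallyGoodRings
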